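import Mathlib

/-!
# Labelled counts in balanced blow-ups of a fixed finite relation
-/

set_option autoImplicit false

open Filter Topology

namespace Pool.Agent.T6.H96

/-- The number of `v < n` with `v % m = r`. -/
lemma card_mod_bounds (n m r : ℕ) (hm : 0 < m) (hr : r < m) :
    n / m ≤ ((Finset.univ : Finset (Fin n)).filter (fun v : Fin n => (v : ℕ) % m = r)).card ∧
    ((Finset.univ : Finset (Fin n)).filter (fun v : Fin n => (v : ℕ) % m = r)).card ≤ n / m + 1 := by
  have h1 : ((Finset.univ : Finset (Fin n)).filter (fun v : Fin n => (v : ℕ) % m = r)).card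
      = Nat.count (fun x => x ≡ r [MOD m]) n := by
    rw [Nat.count_eq_card_filter_range]
    rw [← Finset.card_map (Fin.valEmbedding)]
    congr 1
    ext x
    simp only [Finset.mem_map, Finset.mem_filter, Finset.mem_univ, true_and, Finset.mem_range,
      Fin.valEmbedding_apply]
    constructor
    · rintro ⟨v, hv, rfl⟩
      refine ⟨v.2, ?_⟩
      unfold Nat.ModEq
      rw [hv, Nat.mod_eq_of_lt hr]
    · rintro ⟨hx, hmod⟩
      refine ⟨⟨x, hx⟩, ?_, rfl⟩
      unfold Nat.ModEq at hmod
      rw [Nat.mod_eq_of_lt hr] at hmod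
      exact hmod
  rw [h1, Nat.count_modEq_card n hm r]
  split_ifs <;> omega

/-- The blow-up map from `Fin n` to `B`. -/
noncomputable def blowMap (B : Type) [Fintype B] [Nonempty B] (n : ℕ) (v : Fin n) : B :=
  (Fintype.equivFin B).symm ⟨(v : ℕ) % Fintype.card B, Nat.mod_lt _ Fintype.card_pos⟩

/-- The size of a class of the blow-up. -/
noncomputable def wt (B : Type) [Fintype B] [Nonempty B] (n : ℕ) (b : B) : ℕ :=
  Nat.card {v : Fin n // blowMap B n v = b}

lemma wt_bounds (B : Type) [Fintype B] [Nonempty B] (n : ℕ) (b : B) :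
    n / Fintype.card B ≤ wt B n b ∧ wt B n b ≤ n / Fintype.card B + 1 := by
  classical
  have h := card_mod_bounds n (Fintype.card B) (Fintype.equivFin B b) Fintype.card_pos
    (Fintype.equivFin B b).2
  have e : wt B n b = ((Finset.univ : Finset (Fin n)).filter
      (fun v : Fin n => (v : ℕ) % Fintype.card B = (Fintype.equivFin B b : ℕ))).card := by
    unfold wt
    rw [Nat.card_eq_fintype_card, Fintype.card_subtype]
    refine congrArg Finset.card ?_
    ext v
    simp only [Finset.mem_filter, Finset.mem_univ, true_and, blowMap]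
    rw [Equiv.symm_apply_eq]
    constructor
    · intro h
      rw [← h]
    · intro h
      exact Fin.ext h
  rw [e]
  exact h

lemma wt_tendsto (B : Type) [Fintype B] [Nonempty B] (b : B) :
    Tendsto (fun n : ℕ => (wt B n b : ℝ) / n) atTop (𝓝 (1 / Fintype.card B)) := by
  have hm : (0 : ℝ) < Fintype.card B := by exact_mod_cast Fintype.card_pos
  have h1 : Tendsto (fun n : ℕ => 1 / (Fintype.card B : ℝ) - 1 / (n : ℝ)) atTop
      (𝓝 (1 / (Fintype.card B : ℝ) - 0)) :=
    tendsto_const_nhds.sub tendsto_one_div_atTop_nhds_zero_nat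
  have h2 : Tendsto (fun n : ℕ => 1 / (Fintype.card B : ℝ) + 1 / (n : ℝ)) atTop
      (𝓝 (1 / (Fintype.card B : ℝ) + 0)) :=
    tendsto_const_nhds.add tendsto_one_div_atTop_nhds_zero_nat
  rw [sub_zero] at h1
  rw [add_zero] at h2
  refine tendsto_of_tendsto_of_tendsto_of_le_of_le' h1 h2 ?_ ?_
  · filter_upwards [eventually_gt_atTop 0] with n hn
    have hn' : (0 : ℝ) < n := by exact_mod_cast hn
    have hb := (wt_bounds B n b).1
    have h3 : (n : ℝ) / Fintype.card B - 1 ≤ ((n / Fintype.card B : ℕ) : ℝ) := by
      have := Nat.lt_floor_add_one ((n : ℝ) / Fintype.card B)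
      rw [Nat.floor_div_eq_div] at this
      linarith
    have h4 : ((n / Fintype.card B : ℕ) : ℝ) ≤ (wt B n b : ℝ) := by exact_mod_cast hb
    have h5 : (1 / (Fintype.card B : ℝ) - 1 / (n : ℝ)) = ((n : ℝ) / Fintype.card B - 1) / n := by
      field_simp
    rw [h5]
    gcongr
    linarith
  · filter_upwards [eventually_gt_atTop 0] with n hn
    have hn' : (0 : ℝ) < n := by exact_mod_cast hn
    have hb := (wt_bounds B n b).2
    have h3 : ((n / Fintype.card B : ℕ) : ℝ) ≤ (n : ℝ) / Fintype.card B := Nat.cast_div_le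
    have h4 : (wt B n b : ℝ) ≤ ((n / Fintype.card B : ℕ) : ℝ) + 1 := by exact_mod_cast hb
    have h5 : (1 / (Fintype.card B : ℝ) + 1 / (n : ℝ)) = ((n : ℝ) / Fintype.card B + 1) / n := by
      field_simp
    rw [h5]
    gcongr
    linarith

/-- All maps `ι → Fin n` whose composition with the blow-up map has the property `P`. -/
lemma card_all_maps (B : Type) [Fintype B] [Nonempty B] {ι : Type} [Fintype ι]
    (P : (ι → B) → Prop) (n : ℕ) :
    (Set.ncard {f : ι → Fin n | P (fun i => blowMap B n (f i))} : ℝ)
      = ∑ᶠ φ ∈ {φ : ι → B | P φ}, ∏ i, (wt B n (φ i) : ℝ) := by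
  classical
  rw [finsum_mem_eq_toFinset_sum]
  rw [Set.ncard_eq_toFinset_card']
  rw [Finset.card_eq_sum_card_fiberwise (f := fun (f : ι → Fin n) => (fun i => blowMap B n (f i)))
    (t := ({φ : ι → B | P φ} : Set (ι → B)).toFinset)]
  · push_cast
    refine Finset.sum_congr rfl ?_
    intro φ hφ
    rw [Set.mem_toFinset] at hφ
    have : (Finset.filter (fun (f : ι → Fin n) => (fun i => blowMap B n (f i)) = φ)
        ({f : ι → Fin n | P (fun i => blowMap B n (f i))} : Set (ι → Fin n)).toFinset)
        = Fintype.piFinset (fun i => Finset.univ.filter (fun v : Fin n => blowMap B n v = φ i)) := by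
      ext f
      simp only [Finset.mem_filter, Set.mem_toFinset, Set.mem_ofPred_eq, Fintype.mem_piFinset,
        Finset.mem_univ, true_and]
      constructor
      · rintro ⟨_, h⟩ i
        exact congrFun h i
      · intro h
        have h' : (fun i => blowMap B n (f i)) = φ := funext h
        refine ⟨?_, h'⟩
        rw [h']
        exact hφ
    rw [this, Fintype.card_piFinset]
    push_cast
    refine Finset.prod_congr rfl ?_
    intro i _
    unfold wt
    rw [Nat.card_eq_fintype_card, Fintype.card_subtype]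
  · intro f hf
    simp only [Set.coe_toFinset, Set.mem_ofPred_eq] at hf ⊢
    exact hf

lemma descFactorial_ratio (k : ℕ) :
    Tendsto (fun n : ℕ => (n.descFactorial k : ℝ) / (n : ℝ) ^ k) atTop (𝓝 1) := by
  have h1 : Tendsto (fun n : ℕ => (1 - (k : ℝ) / n) ^ k) atTop (𝓝 ((1 - 0) ^ k)) := by
    refine Tendsto.pow ?_ k
    exact tendsto_const_nhds.sub (tendsto_const_div_atTop_nhds_zero_nat (k : ℝ))
  rw [sub_zero, one_pow] at h1
  refine tendsto_of_tendsto_of_tendsto_of_le_of_le' h1 tendsto_const_nhds ?_ ?_
  · filter_upwards [eventually_gt_atTop k] with n hn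
    have hn' : (0 : ℝ) < n := by
      have : 0 < n := by omega
      exact_mod_cast this
    have h2 : ((n + 1 - k : ℕ) : ℝ) ^ k ≤ (n.descFactorial k : ℝ) := by
      exact_mod_cast Nat.pow_sub_le_descFactorial n k
    have h3 : (n : ℝ) - k ≤ ((n + 1 - k : ℕ) : ℝ) := by
      rw [Nat.cast_sub (by omega)]
      push_cast
      linarith
    have h4 : (0 : ℝ) ≤ (n : ℝ) - k := by
      have : (k : ℝ) ≤ n := by exact_mod_cast hn.le
      linarith
    have h5 : (1 - (k : ℝ) / n) = ((n : ℝ) - k) / n := by field_simp
    rw [h5, div_pow]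
    gcongr
    calc ((n : ℝ) - k) ^ k ≤ ((n + 1 - k : ℕ) : ℝ) ^ k := by gcongr
      _ ≤ _ := h2
  · filter_upwards [eventually_gt_atTop 0] with n hn
    have hn' : (0 : ℝ) < n := by exact_mod_cast hn
    rw [div_le_one (by positivity)]
    exact_mod_cast Nat.descFactorial_le_pow n k

/-- The number of injective maps. -/
lemma ncard_injective {ι : Type} [Fintype ι] (n : ℕ) :
    Set.ncard {f : ι → Fin n | Function.Injective f} = n.descFactorial (Fintype.card ι) := by
  classical
  have h := Fintype.card_embedding_eq (α := ι) (β := Fin n)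
  rw [Fintype.card_fin] at h
  rw [← h, ← Nat.card_coe_set_eq, ← Nat.card_eq_fintype_card]
  exact Nat.card_congr (Equiv.subtypeInjectiveEquivEmbedding ι (Fin n))

/-- The main limit: the injective density of a pattern in the blow-ups tends to the density of
all maps with the property in the base. -/
theorem blow_limit (B : Type) [Fintype B] [Nonempty B] {ι : Type} [Fintype ι]
    (P : (ι → B) → Prop) :
    Tendsto (fun n : ℕ =>
      (Set.ncard {f : ι → Fin n | Function.Injective f ∧ P (fun i => blowMap B n (f i))} : ℝ) /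
        (n.descFactorial (Fintype.card ι) : ℝ)) atTop
      (𝓝 ((Set.ncard {φ : ι → B | P φ} : ℝ) / (Fintype.card B : ℝ) ^ Fintype.card ι)) := by
  classical
  set k := Fintype.card ι with hk
  have hB : (0 : ℝ) < Fintype.card B := by exact_mod_cast Fintype.card_pos
  -- all maps
  have hX : Tendsto (fun n : ℕ =>
      (Set.ncard {f : ι → Fin n | P (fun i => blowMap B n (f i))} : ℝ) / (n : ℝ) ^ k) atTop
      (𝓝 ((Set.ncard {φ : ι → B | P φ} : ℝ) / (Fintype.card B : ℝ) ^ k)) := by
    have e1 : ∀ n : ℕ, (Set.ncard {f : ι → Fin n | P (fun i => blowMap B n (f i))} : ℝ) / (n : ℝ) ^ k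
        = ∑ φ ∈ ({φ : ι → B | P φ} : Set (ι → B)).toFinset, ∏ i, ((wt B n (φ i) : ℝ) / n) := by
      intro n
      rw [card_all_maps, finsum_mem_eq_toFinset_sum, Finset.sum_div]
      refine Finset.sum_congr rfl ?_
      intro φ _
      rw [Finset.prod_div_distrib, Finset.prod_const, hk, Finset.card_univ]
    have e2 : ((Set.ncard {φ : ι → B | P φ} : ℝ) / (Fintype.card B : ℝ) ^ k)
        = ∑ φ ∈ ({φ : ι → B | P φ} : Set (ι → B)).toFinset, ∏ _i : ι, (1 / (Fintype.card B : ℝ)) := by
      rw [Finset.prod_const, Finset.sum_const, nsmul_eq_mul, Set.ncard_eq_toFinset_card',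
        Finset.card_univ, ← hk, one_div, inv_pow]
      rfl
    rw [e2]
    simp_rw [e1]
    refine tendsto_finsetSum _ ?_
    intro φ _
    refine tendsto_finsetProd _ ?_
    intro i _
    exact wt_tendsto B (φ i)
  -- upper and lower bounds
  have hD := descFactorial_ratio k
  have hE : Tendsto (fun n : ℕ =>
      (Set.ncard {f : ι → Fin n | Function.Injective f ∧ P (fun i => blowMap B n (f i))} : ℝ) /
        (n : ℝ) ^ k) atTop
      (𝓝 ((Set.ncard {φ : ι → B | P φ} : ℝ) / (Fintype.card B : ℝ) ^ k)) := by
    have hlow : Tendsto (fun n : ℕ =>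
        (Set.ncard {f : ι → Fin n | P (fun i => blowMap B n (f i))} : ℝ) / (n : ℝ) ^ k
          - (1 - (n.descFactorial k : ℝ) / (n : ℝ) ^ k)) atTop
        (𝓝 ((Set.ncard {φ : ι → B | P φ} : ℝ) / (Fintype.card B : ℝ) ^ k - (1 - 1))) :=
      hX.sub (tendsto_const_nhds.sub hD)
    rw [sub_self, sub_zero] at hlow
    refine tendsto_of_tendsto_of_tendsto_of_le_of_le' hlow hX ?_ ?_
    · filter_upwards [eventually_gt_atTop 0] with n hn
      have hn' : (0 : ℝ) < n := by exact_mod_cast hn
      have hsub : {f : ι → Fin n | P (fun i => blowMap B n (f i))} ⊆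
          {f : ι → Fin n | Function.Injective f ∧ P (fun i => blowMap B n (f i))} ∪
          {f : ι → Fin n | Function.Injective f}ᶜ := by
        intro f hf
        by_cases hi : Function.Injective f
        · left
          exact ⟨hi, hf⟩
        · right
          exact hi
      have h1 := (Set.ncard_le_ncard hsub (Set.toFinite _)).trans (Set.ncard_union_le _ _)
      have h2 := Set.ncard_add_ncard_compl {f : ι → Fin n | Function.Injective f}
      rw [ncard_injective, Nat.card_eq_fintype_card, Fintype.card_fun, Fintype.card_fin, ← hk] at h2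
      have h3 : (Set.ncard {f : ι → Fin n | P (fun i => blowMap B n (f i))} : ℝ) ≤
          (Set.ncard {f : ι → Fin n | Function.Injective f ∧ P (fun i => blowMap B n (f i))} : ℝ)
          + ((n : ℝ) ^ k - (n.descFactorial k : ℝ)) := by
        have h4 : ((n.descFactorial k : ℕ) : ℝ) +
            (Set.ncard ({f : ι → Fin n | Function.Injective f}ᶜ) : ℝ) = (n : ℝ) ^ k := by
          exact_mod_cast h2
        have h5 : (Set.ncard {f : ι → Fin n | P (fun i => blowMap B n (f i))} : ℝ) ≤
          (Set.ncard {f : ι → Fin n | Function.Injective f ∧ P (fun i => blowMap B n (f i))} : ℝ)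
          + (Set.ncard ({f : ι → Fin n | Function.Injective f}ᶜ) : ℝ) := by
          exact_mod_cast h1
        linarith
      have hpos : (0 : ℝ) < (n : ℝ) ^ k := by positivity
      rw [div_sub' hpos.ne', div_le_div_iff_of_pos_right hpos]
      have : (n : ℝ) ^ k * (1 - (n.descFactorial k : ℝ) / (n : ℝ) ^ k)
          = (n : ℝ) ^ k - (n.descFactorial k : ℝ) := by
        field_simp
      linarith
    · filter_upwards [eventually_gt_atTop 0] with n hn
      have hn' : (0 : ℝ) < n := by exact_mod_cast hn
      gcongr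
      · exact Set.toFinite _
      · intro hf
        exact hf.2
  have hfin := hE.div hD one_ne_zero
  rw [div_one] at hfin
  refine hfin.congr' ?_
  filter_upwards [eventually_gt_atTop 0] with n hn
  have hn' : (0 : ℝ) < n := by exact_mod_cast hn
  simp only [Pi.div_apply]
  rw [div_div_div_cancel_right₀ (by positivity)]

end Pool.Agent.T6.H96
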