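import Mathlib
import Pool.Agent.T6.H96.BlowLimit

/-!
# Homomorphism counts in tensor powers of complete graphs
-/

set_option autoImplicit false

open Filter Topology

namespace Pool.Agent.T6.H96

/-- Colourings of a pattern `R` with `q` colours. -/
def colSet {ι : Type} (R : ι → ι → Prop) (q : ℕ) : Set (ι → Fin q) :=
  {ψ | ∀ i j, R i j → ψ i ≠ ψ j}

/-- Maps of the pattern to words of length `L`, adjacent vertices going to words which differ in
all coordinates. -/
def wordSet {ι : Type} (R : ι → ι → Prop) (q L : ℕ) : Set (ι → (Fin L → Fin q)) :=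
  {φ | ∀ i j, R i j → ∀ c, φ i c ≠ φ j c}

lemma ncard_wordSet {ι : Type} [Fintype ι] (R : ι → ι → Prop) (q L : ℕ) :
    (wordSet R q L).ncard = (colSet R q).ncard ^ L := by
  classical
  rw [← Nat.card_coe_set_eq, ← Nat.card_coe_set_eq]
  have e : (wordSet R q L : Set _) ≃ (Fin L → (colSet R q : Set _)) :=
    { toFun := fun φ c => ⟨fun i => φ.1 i c, fun i j h => φ.2 i j h c⟩
      invFun := fun g => ⟨fun i c => (g c).1 i, fun i j h c => (g c).2 i j h⟩
      left_inv := fun φ => rfl
      right_inv := fun g => rfl }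
  rw [Nat.card_congr e, Nat.card_fun, Nat.card_fin]

/-- The graph on `Fin n` which is a blow-up of the tensor power. -/
noncomputable def gr (q L n : ℕ) [NeZero q] : SimpleGraph (Fin n) where
  Adj v w := ∀ c : Fin (L + 1), blowMap (Fin (L + 1) → Fin q) n v c ≠
    blowMap (Fin (L + 1) → Fin q) n w c
  symm := ⟨fun _ _ h c => (h c).symm⟩
  loopless := ⟨fun _ h => h 0 rfl⟩

/-- density of an edge in `K_q` -/
noncomputable def uu (q : ℕ) : ℝ := 1 - 1 / (q : ℝ)

/-- normalised density of colourings -/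
noncomputable def rho {ι : Type} [Fintype ι] (R : ι → ι → Prop) (q e : ℕ) : ℝ :=
  ((colSet R q).ncard : ℝ) / ((q : ℝ) ^ (Fintype.card ι) * uu q ^ e)

theorem count_limit {ι : Type} [Fintype ι] (R : ι → ι → Prop) (q L e : ℕ) [NeZero q] :
    Tendsto (fun n : ℕ =>
      (Set.ncard {f : ι → Fin n | Function.Injective f ∧ ∀ i j, R i j → (gr q L n).Adj (f i) (f j)} : ℝ)
        / ((n.descFactorial (Fintype.card ι) : ℝ) * (uu q ^ (L + 1)) ^ e)) atTop
      (𝓝 (rho R q e ^ (L + 1))) := by
  have h := blow_limit (Fin (L + 1) → Fin q) (ι := ι) (fun φ => ∀ i j, R i j → ∀ c, φ i c ≠ φ j c)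
  have h2 := h.div_const ((uu q ^ (L + 1)) ^ e)
  have e1 : (Set.ncard {φ : ι → (Fin (L + 1) → Fin q) | ∀ i j, R i j → ∀ c, φ i c ≠ φ j c} : ℝ)
      = ((colSet R q).ncard : ℝ) ^ (L + 1) := by
    have := ncard_wordSet R q (L + 1)
    unfold wordSet at this
    rw [this]
    push_cast
    rfl
  rw [e1] at h2
  have e2 : ((colSet R q).ncard : ℝ) ^ (L + 1) /
      (Fintype.card (Fin (L + 1) → Fin q) : ℝ) ^ Fintype.card ι / (uu q ^ (L + 1)) ^ e
      = rho R q e ^ (L + 1) := by
    unfold rho
    rw [Fintype.card_fun, Fintype.card_fin, Fintype.card_fin]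
    push_cast
    rw [div_pow, mul_pow, div_div, ← pow_mul, ← pow_mul, ← pow_mul, ← pow_mul, mul_comm (L + 1) e,
      mul_comm (L + 1) (Fintype.card ι)]
  rw [e2] at h2
  refine h2.congr ?_
  intro n
  rw [div_div]
  rfl

lemma uu_pos {q : ℕ} (hq : 2 ≤ q) : 0 < uu q := by
  unfold uu
  have : (2 : ℝ) ≤ q := by exact_mod_cast hq
  rw [sub_pos, div_lt_one (by linarith)]
  linarith

lemma uu_eq {q : ℕ} (hq : 2 ≤ q) : uu q = ((q : ℝ) - 1) / q := by
  unfold uu
  have : (2 : ℝ) ≤ q := by exact_mod_cast hq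
  field_simp

lemma uu_le_one (q : ℕ) : uu q ≤ 1 := by
  unfold uu
  have : (0 : ℝ) ≤ 1 / q := by positivity
  linarith

lemma colSet_top (k q : ℕ) :
    colSet (fun i j : Fin k => (⊤ : SimpleGraph (Fin k)).Adj i j) q = {f | Function.Injective f} := by
  ext f
  constructor
  · intro h i j hij
    by_contra hne
    exact h i j hne hij
  · intro h i j hij heq
    exact hij (h heq)

lemma rho_two {q : ℕ} (hq : 2 ≤ q) :
    rho (fun i j : Fin 2 => (⊤ : SimpleGraph (Fin 2)).Adj i j) q 1 = 1 := by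
  unfold rho
  rw [colSet_top, ncard_injective, uu_eq hq]
  have : (2 : ℝ) ≤ q := by exact_mod_cast hq
  simp only [Fintype.card_fin, Nat.descFactorial_succ, Nat.descFactorial_zero]
  rw [show ((q - 1) * ((q - 0) * 1) : ℕ) = (q - 1) * q by simp]
  rw [Nat.cast_mul, Nat.cast_sub (by omega)]
  have h1 : (q : ℝ) - 1 ≠ 0 := by linarith
  have h2 : (q : ℝ) ≠ 0 := by linarith
  field_simp
  push_cast
  ring

lemma rho_three {q : ℕ} (hq : 3 ≤ q) :
    rho (fun i j : Fin 3 => (SimpleGraph.cycleGraph 3).Adj i j) q 3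
      = 1 - 1 / ((q : ℝ) - 1) ^ 2 := by
  unfold rho
  rw [SimpleGraph.cycleGraph_three_eq_top, colSet_top, ncard_injective, uu_eq (by omega)]
  have : (3 : ℝ) ≤ q := by exact_mod_cast hq
  simp only [Fintype.card_fin, Nat.descFactorial_succ, Nat.descFactorial_zero]
  rw [show ((q - 2) * ((q - 1) * ((q - 0) * 1)) : ℕ) = (q - 2) * ((q - 1) * q) by simp]
  rw [Nat.cast_mul, Nat.cast_mul, Nat.cast_sub (by omega), Nat.cast_sub (by omega)]
  have h1 : (q : ℝ) - 1 ≠ 0 := by linarith
  have h2 : (q : ℝ) ≠ 0 := by linarith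
  field_simp
  push_cast
  ring

/-- Number of colourings of `K_{s,t}`. -/
lemma ncard_bip (s t q : ℕ) :
    (colSet (fun i j : Fin s ⊕ Fin t => (completeBipartiteGraph (Fin s) (Fin t)).Adj i j) q).ncard
      = ∑ x : Fin s → Fin q, (q - (Finset.univ.image x).card) ^ t := by
  classical
  have e : (colSet (fun i j : Fin s ⊕ Fin t => (completeBipartiteGraph (Fin s) (Fin t)).Adj i j) q :
      Set _) ≃ (Σ x : Fin s → Fin q, (Fin t → {c : Fin q // c ∈ (Finset.univ.image x)ᶜ})) :=
    { toFun := fun f => ⟨fun i => f.1 (Sum.inl i), fun j => ⟨f.1 (Sum.inr j), by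
        rw [Finset.mem_compl, Finset.mem_image]
        rintro ⟨i, _, hi⟩
        exact f.2 (Sum.inl i) (Sum.inr j) (by simp) hi⟩⟩
      invFun := fun g => ⟨Sum.elim g.1 (fun j => (g.2 j).1), by
        intro i j hij
        rcases i with i | i <;> rcases j with j | j
        · simp at hij
        · intro heq
          have := (g.2 j).2
          rw [Finset.mem_compl, Finset.mem_image] at this
          exact this ⟨i, Finset.mem_univ _, heq⟩
        · intro heq
          have := (g.2 i).2
          rw [Finset.mem_compl, Finset.mem_image] at this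
          exact this ⟨j, Finset.mem_univ _, heq.symm⟩
        · simp at hij⟩
      left_inv := by
        intro f
        apply Subtype.ext
        funext i
        rcases i with i | i <;> rfl
      right_inv := by
        intro g
        rfl }
  rw [← Nat.card_coe_set_eq, Nat.card_congr e, Nat.card_eq_fintype_card, Fintype.card_sigma]
  refine Finset.sum_congr rfl ?_
  intro x _
  rw [Fintype.card_fun, Fintype.card_fin, Fintype.card_coe, Finset.card_compl, Fintype.card_fin]

lemma card_image_two {q : ℕ} (x : Fin 2 → Fin q) :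
    (Finset.univ.image x).card = if x 0 = x 1 then 1 else 2 := by
  classical
  have : (Finset.univ.image x) = {x 0, x 1} := by
    ext c
    simp only [Finset.mem_image, Finset.mem_univ, true_and, Finset.mem_insert, Finset.mem_singleton]
    constructor
    · rintro ⟨i, rfl⟩
      fin_cases i <;> simp
    · rintro (rfl | rfl)
      · exact ⟨0, rfl⟩
      · exact ⟨1, rfl⟩
  rw [this]
  split_ifs with h
  · rw [h]; simp
  · exact Finset.card_pair h

/-- the identification of `K_{2,2}` with the 4-cycle -/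
def eFour : Fin 2 ⊕ Fin 2 ≃ Fin 4 :=
  { toFun := fun i => Sum.elim (fun a => if a = 0 then 0 else 2) (fun a => if a = 0 then 1 else 3) i
    invFun := fun a => if a = 0 then Sum.inl 0 else if a = 1 then Sum.inr 0 else
      if a = 2 then Sum.inl 1 else Sum.inr 1
    left_inv := by decide
    right_inv := by decide }

lemma eFour_adj : ∀ i j : Fin 2 ⊕ Fin 2, (SimpleGraph.cycleGraph 4).Adj (eFour i) (eFour j) ↔
    (completeBipartiteGraph (Fin 2) (Fin 2)).Adj i j := by
  simp only [completeBipartiteGraph]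
  decide

lemma ncard_four (q : ℕ) :
    (colSet (fun i j : Fin 4 => (SimpleGraph.cycleGraph 4).Adj i j) q).ncard
      = (colSet (fun i j : Fin 2 ⊕ Fin 2 => (completeBipartiteGraph (Fin 2) (Fin 2)).Adj i j) q).ncard := by
  classical
  have he := eFour_adj
  rw [← Nat.card_coe_set_eq, ← Nat.card_coe_set_eq]
  refine Nat.card_congr ((Equiv.arrowCongr eFour.symm (Equiv.refl (Fin q))).subtypeEquiv ?_)
  intro f
  constructor
  · intro h i j hij
    exact h (eFour i) (eFour j) ((he i j).2 hij)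
  · intro h i j hij
    have := h (eFour.symm i) (eFour.symm j) ((he _ _).1 (by simpa using hij))
    simpa using this

lemma rho_four {q : ℕ} (hq : 3 ≤ q) :
    rho (fun i j : Fin 4 => (SimpleGraph.cycleGraph 4).Adj i j) q 4
      = 1 + 1 / ((q : ℝ) - 1) ^ 3 := by
  classical
  unfold rho
  rw [ncard_four, ncard_bip, uu_eq (by omega)]
  have h3 : (3 : ℝ) ≤ q := by exact_mod_cast hq
  have hcard : (∑ x : Fin 2 → Fin q, (q - (Finset.univ.image x).card) ^ 2 : ℕ)
      = q * (q - 1) ^ 2 + q * (q - 1) * (q - 2) ^ 2 := by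
    have e1 : (∑ x : Fin 2 → Fin q, (q - (Finset.univ.image x).card) ^ 2 : ℕ)
        = ∑ a : Fin q, ∑ b : Fin q, (if a = b then (q - 1) ^ 2 else (q - 2) ^ 2) := by
      rw [← Fintype.sum_prod_type']
      refine Fintype.sum_equiv (finTwoArrowEquiv (Fin q)) _ _ ?_
      intro x
      rw [card_image_two]
      have h0 : finTwoArrowEquiv (Fin q) x = (x 0, x 1) := rfl
      rw [h0]
      split_ifs <;> rfl
    rw [e1]
    have e2 : ∀ a : Fin q, (∑ b : Fin q, (if a = b then (q - 1) ^ 2 else (q - 2) ^ 2))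
        = (q - 1) ^ 2 + (q - 1) * (q - 2) ^ 2 := by
      intro a
      rw [Finset.sum_ite]
      rw [Finset.sum_const, Finset.sum_const, Finset.filter_eq Finset.univ a]
      simp only [Finset.mem_univ, if_true, Finset.card_singleton, smul_eq_mul]
      rw [show (Finset.univ.filter (fun b : Fin q => ¬ a = b)) = Finset.univ.erase a by
        ext b; simp [eq_comm]]
      rw [Finset.card_erase_of_mem (Finset.mem_univ _), Finset.card_univ, Fintype.card_fin, one_mul]
    simp_rw [e2]
    rw [Finset.sum_const, Finset.card_univ, Fintype.card_fin, smul_eq_mul]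
    ring
  rw [hcard]
  simp only [Fintype.card_fin]
  have h1 : (q : ℝ) - 1 ≠ 0 := by linarith
  have h2 : (q : ℝ) ≠ 0 := by linarith
  push_cast [Nat.cast_sub (show 1 ≤ q by omega), Nat.cast_sub (show 2 ≤ q by omega)]
  field_simp
  ring

lemma pow_bound (z : ℝ) (h0 : 0 ≤ z) (h1 : z ≤ 1) (k : ℕ) :
    (1 + z) ^ k ≤ 1 + z * (2 ^ k - 1) := by
  induction k with
  | zero => simp
  | succ k ih =>
    have h2 : (1 : ℝ) ≤ 2 ^ k := one_le_pow₀ (by norm_num)
    calc (1 + z) ^ (k + 1) = (1 + z) ^ k * (1 + z) := pow_succ _ _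
      _ ≤ (1 + z * (2 ^ k - 1)) * (1 + z) := by gcongr
      _ = 1 + z + z * (2 ^ k - 1) + z * z * (2 ^ k - 1) := by ring
      _ ≤ 1 + z + z * (2 ^ k - 1) + z * 1 * (2 ^ k - 1) := by
        have : 0 ≤ (2 : ℝ) ^ k - 1 := by linarith
        gcongr
      _ = 1 + z * (2 ^ (k + 1) - 1) := by ring

lemma noninj_density {q : ℕ} (hq : 1 ≤ q) (s : ℕ) (hs : 1 ≤ s) :
    1 - (q.descFactorial s : ℝ) / (q : ℝ) ^ s ≤ (s : ℝ) ^ 2 / q := by
  have hq' : (0 : ℝ) < q := by exact_mod_cast hq
  have hs' : (1 : ℝ) ≤ s := by exact_mod_cast hs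
  by_cases hqs : q < s
  · have h1 : (1 : ℝ) ≤ (s : ℝ) ^ 2 / q := by
      rw [one_le_div hq']
      have : (q : ℝ) ≤ s := by exact_mod_cast hqs.le
      nlinarith
    have h2 : (0 : ℝ) ≤ (q.descFactorial s : ℝ) / (q : ℝ) ^ s := by positivity
    linarith
  · push Not at hqs
    have hsq : (s : ℝ) ≤ q := by exact_mod_cast hqs
    have h2 : ((q + 1 - s : ℕ) : ℝ) ^ s ≤ (q.descFactorial s : ℝ) := by
      exact_mod_cast Nat.pow_sub_le_descFactorial q s
    have h3 : (q : ℝ) - s ≤ ((q + 1 - s : ℕ) : ℝ) := by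
      rw [Nat.cast_sub (by omega)]
      push_cast
      linarith
    have h4 : (1 + (-(s : ℝ) / q)) ^ s ≤ (q.descFactorial s : ℝ) / (q : ℝ) ^ s := by
      rw [show (1 + (-(s : ℝ) / q)) = ((q : ℝ) - s) / q by field_simp; try ring, div_pow]
      gcongr
      calc ((q : ℝ) - s) ^ s ≤ ((q + 1 - s : ℕ) : ℝ) ^ s := by
            gcongr
        _ ≤ _ := h2
    have h5 : 1 + (s : ℝ) * (-(s : ℝ) / q) ≤ (1 + (-(s : ℝ) / q)) ^ s := by
      apply one_add_mul_le_pow
      have : (s : ℝ) / q ≤ 1 := by rw [div_le_one hq']; exact hsq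
      rw [neg_div]
      linarith
    have h6 : (s : ℝ) * (-(s : ℝ) / q) = - ((s : ℝ) ^ 2 / q) := by ring
    linarith

/-- The bound for `K_{s,t}`. -/
lemma rho_bip {q : ℕ} (hq : 2 ≤ q) (s t : ℕ) (hs : 1 ≤ s) :
    rho (fun i j : Fin s ⊕ Fin t => (completeBipartiteGraph (Fin s) (Fin t)).Adj i j) q (s * t)
      ≤ 1 + (2 * 2 ^ (s * t) * (s : ℝ) ^ 2) / (q : ℝ) ^ 2 := by
  classical
  have hq' : (2 : ℝ) ≤ q := by exact_mod_cast hq
  have hq0 : (0 : ℝ) < q := by linarith
  have hu := uu_pos hq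
  have hu1 := uu_le_one q
  unfold rho
  rw [ncard_bip]
  simp only [Fintype.card_sum, Fintype.card_fin]
  rw [div_le_iff₀ (by positivity)]
  -- bound of a single term
  have hinv : 1 ≤ uu q * (1 + 2 / q) := by
    rw [uu_eq hq]
    have : ((q : ℝ) - 1) / q * (1 + 2 / q) = 1 + (q - 2) / (q : ℝ) ^ 2 := by
      field_simp
      ring
    rw [this]
    have : (0 : ℝ) ≤ (q - 2) / (q : ℝ) ^ 2 := div_nonneg (by linarith) (by positivity)
    linarith
  have hterm : ∀ x : Fin s → Fin q, (((q - (Finset.univ.image x).card) ^ t : ℕ) : ℝ) ≤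
      (q : ℝ) ^ t * uu q ^ (s * t) *
        (1 + (if Function.Injective x then (0 : ℝ) else (2 / (q : ℝ)) * 2 ^ (s * t))) := by
    intro x
    set D := (Finset.univ.image x).card with hD
    have hDq : D ≤ q := by
      have := Finset.card_le_univ (Finset.univ.image x)
      rwa [Fintype.card_fin] at this
    have hDs : D ≤ s := by
      have := Finset.card_image_le (s := (Finset.univ : Finset (Fin s))) (f := x)
      rwa [Finset.card_univ, Fintype.card_fin] at this
    have hb : (((q - D : ℕ) : ℝ)) ≤ q * uu q ^ D := by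
      rw [Nat.cast_sub hDq]
      have h1 : 1 + (D : ℝ) * (-(1 / (q : ℝ))) ≤ (1 + (-(1 / (q : ℝ)))) ^ D := by
        apply one_add_mul_le_pow
        have : 1 / (q : ℝ) ≤ 1 := by rw [div_le_one hq0]; linarith
        linarith
      have h2 : (q : ℝ) - D = q * (1 + (D : ℝ) * (-(1 / (q : ℝ)))) := by field_simp; ring
      rw [h2]
      unfold uu
      have h3 : (1 : ℝ) - 1 / q = 1 + (-(1 / (q : ℝ))) := by ring
      rw [h3]
      gcongr
    push_cast
    have hb2 : ((q - D : ℕ) : ℝ) ^ t ≤ (q : ℝ) ^ t * uu q ^ (D * t) := by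
      calc ((q - D : ℕ) : ℝ) ^ t ≤ (q * uu q ^ D) ^ t := by gcongr
        _ = _ := by rw [mul_pow, ← pow_mul]
    refine hb2.trans ?_
    rw [mul_assoc]
    refine mul_le_mul_of_nonneg_left ?_ (by positivity)
    split_ifs with hinj
    · have : D = s := by
        rw [hD, Finset.card_image_of_injective _ hinj, Finset.card_univ, Fintype.card_fin]
      rw [this]
      simp
    · -- use (uu (1 + 2/q)) ≥ 1
      obtain ⟨r, hr⟩ := Nat.exists_eq_add_of_le hDs
      have h1 : uu q ^ (D * t) ≤ uu q ^ (D * t) * (uu q * (1 + 2 / q)) ^ (r * t) := by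
        have : (1 : ℝ) ≤ (uu q * (1 + 2 / q)) ^ (r * t) := one_le_pow₀ hinv
        have h0 : 0 ≤ uu q ^ (D * t) := by positivity
        nlinarith
      have h2 : uu q ^ (D * t) * (uu q * (1 + 2 / q)) ^ (r * t)
          = uu q ^ (s * t) * (1 + 2 / q) ^ (r * t) := by
        rw [mul_pow, hr, ← mul_assoc, ← pow_add]
        ring_nf
      have h3 : (1 + 2 / (q : ℝ)) ^ (r * t) ≤ (1 + 2 / (q : ℝ)) ^ (s * t) := by
        apply pow_le_pow_right₀
        · have : (0 : ℝ) ≤ 2 / q := by positivity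
          linarith
        · exact Nat.mul_le_mul_right _ (by omega)
      have h4 := pow_bound (2 / (q : ℝ)) (by positivity) (by rw [div_le_one hq0]; exact hq') (s * t)
      calc uu q ^ (D * t) ≤ uu q ^ (s * t) * (1 + 2 / q) ^ (r * t) := by rw [← h2]; exact h1
        _ ≤ uu q ^ (s * t) * (1 + 2 / q * (2 ^ (s * t) - 1)) := by
          gcongr
          exact h3.trans h4
        _ ≤ uu q ^ (s * t) * (1 + 2 / q * 2 ^ (s * t)) := by
          gcongr
          linarith
  -- sum
  have hsum : ((∑ x : Fin s → Fin q, (q - (Finset.univ.image x).card) ^ t : ℕ) : ℝ) ≤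
      ∑ x : Fin s → Fin q, (q : ℝ) ^ t * uu q ^ (s * t) *
        (1 + (if Function.Injective x then (0 : ℝ) else (2 / (q : ℝ)) * 2 ^ (s * t))) := by
    push_cast
    refine Finset.sum_le_sum ?_
    intro x _
    have := hterm x
    push_cast at this
    exact this
  refine hsum.trans ?_
  rw [← Finset.mul_sum, Finset.sum_add_distrib]
  simp only [Finset.sum_const, Finset.card_univ, Fintype.card_fun, Fintype.card_fin, nsmul_eq_mul,
    mul_one]
  have hni : ∑ x : Fin s → Fin q, (if Function.Injective x then (0 : ℝ) else (2 / (q : ℝ)) * 2 ^ (s * t))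
      ≤ (q : ℝ) ^ s * ((s : ℝ) ^ 2 / q) * ((2 / q) * 2 ^ (s * t)) := by
    have h1 : ∑ x : Fin s → Fin q, (if Function.Injective x then (0 : ℝ) else (2 / (q : ℝ)) * 2 ^ (s * t))
        = ((Finset.univ.filter (fun x : Fin s → Fin q => ¬ Function.Injective x)).card : ℝ)
          * ((2 / q) * 2 ^ (s * t)) := by
      rw [Finset.sum_ite]
      simp
    have h2 : ((Finset.univ.filter (fun x : Fin s → Fin q => ¬ Function.Injective x)).card : ℝ)
        = (q : ℝ) ^ s * (1 - (q.descFactorial s : ℝ) / (q : ℝ) ^ s) := by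
      have h3 := Finset.card_filter_add_card_filter_not (s := (Finset.univ : Finset (Fin s → Fin q)))
        (p := fun x : Fin s → Fin q => Function.Injective x)
      have h4 : (Finset.univ.filter (fun x : Fin s → Fin q => Function.Injective x)).card
          = q.descFactorial s := by
        have := ncard_injective (ι := Fin s) q
        rw [Set.ncard_eq_toFinset_card', Fintype.card_fin] at this
        rw [← this]
        congr 1
        ext x
        simp
      rw [h4, Finset.card_univ, Fintype.card_fun, Fintype.card_fin, Fintype.card_fin] at h3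
      have h5 : (q.descFactorial s : ℝ) +
          ((Finset.univ.filter (fun x : Fin s → Fin q => ¬ Function.Injective x)).card : ℝ)
          = (q : ℝ) ^ s := by exact_mod_cast h3
      have : (q : ℝ) ^ s * (1 - (q.descFactorial s : ℝ) / (q : ℝ) ^ s)
          = (q : ℝ) ^ s - (q.descFactorial s : ℝ) := by
        field_simp
      rw [this]
      linarith
    rw [h1, h2]
    gcongr
    exact noninj_density (by omega) s hs
  calc (q : ℝ) ^ t * uu q ^ (s * t) * ((((q ^ s : ℕ) : ℝ)) +
        ∑ x : Fin s → Fin q, (if Function.Injective x then (0 : ℝ) else (2 / (q : ℝ)) * 2 ^ (s * t)))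
      ≤ (q : ℝ) ^ t * uu q ^ (s * t) * ((q : ℝ) ^ s +
          (q : ℝ) ^ s * ((s : ℝ) ^ 2 / q) * ((2 / q) * 2 ^ (s * t))) := by
        push_cast
        gcongr
    _ = (1 + 2 * 2 ^ (s * t) * (s : ℝ) ^ 2 / (q : ℝ) ^ 2) * ((q : ℝ) ^ (s + t) * uu q ^ (s * t)) := by
        rw [pow_add]
        field_simp

end Pool.Agent.T6.H96
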