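import Mathlib
import Pool.Agent.T6.H96.TensorK

/-!
# A diagonal argument and the sequence of graphs
-/

set_option autoImplicit false

open Filter Topology

namespace Pool.Agent.T6.H96

/-- Diagonal choice. -/
lemma exists_diag (P : ℕ → ℕ → Prop) (h : ∀ N, ∀ᶠ n in atTop, P N n) :
    ∃ φ : ℕ → ℕ, Tendsto φ atTop atTop ∧ ∀ᶠ n in atTop, P (φ n) n := by
  classical
  have h' : ∀ N, ∃ T : ℕ, ∀ n, T ≤ n → P N n := fun N => eventually_atTop.1 (h N)
  choose T hT using h'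
  refine ⟨fun n => Nat.findGreatest (fun N => T N ≤ n) n, ?_, ?_⟩
  · rw [tendsto_atTop]
    intro K
    filter_upwards [eventually_ge_atTop (max K (T K))] with n hn
    exact Nat.le_findGreatest ((le_max_left _ _).trans hn) ((le_max_right _ _).trans hn)
  · filter_upwards [eventually_ge_atTop (T 0)] with n hn
    apply hT
    exact Nat.findGreatest_spec (P := fun N => T N ≤ n) (m := 0) (Nat.zero_le _) hn

lemma bounded_of_eventually (u : ℕ → ℝ) (C : ℝ) (h : ∀ᶠ n in atTop, u n ≤ C) :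
    ∃ C' : ℝ, ∀ n, u n ≤ C' := by
  obtain ⟨n0, h0⟩ := eventually_atTop.1 h
  refine ⟨|C| + ∑ i ∈ Finset.range n0, |u i|, fun n => ?_⟩
  have hs : 0 ≤ ∑ i ∈ Finset.range n0, |u i| := Finset.sum_nonneg (fun i _ => abs_nonneg _)
  by_cases hn : n0 ≤ n
  · exact (h0 n hn).trans ((le_abs_self C).trans (by linarith))
  · push Not at hn
    have h1 : |u n| ≤ ∑ i ∈ Finset.range n0, |u i| :=
      Finset.single_le_sum (f := fun i => |u i|) (fun i _ => abs_nonneg _) (Finset.mem_range.2 hn)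
    have h2 := le_abs_self (u n)
    have h3 := abs_nonneg C
    linarith

/-- The number of letters. -/
def qq (N : ℕ) : ℕ := N + 3

instance (N : ℕ) : NeZero (qq N) := ⟨by unfold qq; omega⟩

/-- One less than the number of coordinates. -/
def LL (N : ℕ) : ℕ := (qq N) ^ 2

/-- The density. -/
noncomputable def pp (N : ℕ) : ℝ := uu (qq N) ^ (LL N + 1)

lemma pp_pos (N : ℕ) : 0 < pp N := pow_pos (uu_pos (by unfold qq; omega)) _

lemma pp_le (N : ℕ) : pp N ≤ 1 :=
  pow_le_one₀ (uu_pos (by unfold qq; omega)).le (uu_le_one _)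

/-- The threshold function tends to zero. -/
lemma thr_tendsto (s : ℕ) (hs : 2 ≤ s) (a : ℝ) (ha : 0 < a) :
    Tendsto (fun n : ℕ => (Real.log n) ^ a * (n : ℝ) ^ (-(1 / (s : ℝ)))) atTop (𝓝 0) := by
  have hs' : (0 : ℝ) < 1 / (s : ℝ) := by
    have : (2 : ℝ) ≤ s := by exact_mod_cast hs
    positivity
  have h1 := (isLittleO_log_rpow_rpow_atTop (s := 1 / (s : ℝ)) a hs').tendsto_div_nhds_zero
  have h2 := h1.comp tendsto_natCast_atTop_atTop
  refine h2.congr ?_
  intro n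
  simp only [Function.comp]
  rw [Real.rpow_neg (Nat.cast_nonneg n), div_eq_mul_inv]

lemma thr_eventually (s : ℕ) (hs : 2 ≤ s) (a : ℝ) (ha : 0 < a) (N : ℕ) :
    ∀ᶠ n : ℕ in atTop, (N : ℝ) ≤ pp N / ((Real.log n) ^ a * (n : ℝ) ^ (-(1 / (s : ℝ)))) := by
  have h := thr_tendsto s hs a ha
  have hp := pp_pos N
  have h1 : ∀ᶠ n : ℕ in atTop,
      (Real.log n) ^ a * (n : ℝ) ^ (-(1 / (s : ℝ))) < pp N / (N + 1) := by
    apply h.eventually_lt_const
    positivity
  filter_upwards [h1, eventually_gt_atTop 1] with n hn hn1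
  have hlog : 0 < Real.log n := Real.log_pos (by exact_mod_cast hn1)
  have hn0 : (0 : ℝ) < n := by positivity
  have hpos : 0 < (Real.log n) ^ a * (n : ℝ) ^ (-(1 / (s : ℝ))) :=
    mul_pos (Real.rpow_pos_of_pos hlog _) (Real.rpow_pos_of_pos hn0 _)
  rw [le_div_iff₀ hpos]
  have hN : (0 : ℝ) ≤ N := Nat.cast_nonneg N
  have h2 : (N : ℝ) * ((Real.log n) ^ a * (n : ℝ) ^ (-(1 / (s : ℝ)))) ≤ N * (pp N / (N + 1)) := by
    gcongr
  refine h2.trans ?_
  rw [mul_div_assoc', div_le_iff₀ (by positivity)]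
  nlinarith

lemma rho3_le (N : ℕ) :
    rho (fun i j : Fin 3 => (SimpleGraph.cycleGraph 3).Adj i j) (qq N) 3 ^ (LL N + 1) ≤ 2 / 5 := by
  have hq : 3 ≤ qq N := by unfold qq; omega
  have hq' : (3 : ℝ) ≤ (qq N : ℝ) := by exact_mod_cast hq
  rw [rho_three hq]
  have h1 : (1 : ℝ) - 1 / ((qq N : ℝ) - 1) ^ 2 ≤ Real.exp (-(1 / ((qq N : ℝ) - 1) ^ 2)) := by
    have := Real.add_one_le_exp (-(1 / ((qq N : ℝ) - 1) ^ 2))
    linarith
  have h0 : (0 : ℝ) ≤ 1 - 1 / ((qq N : ℝ) - 1) ^ 2 := by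
    rw [sub_nonneg, div_le_one (by nlinarith)]
    nlinarith
  calc (1 - 1 / ((qq N : ℝ) - 1) ^ 2) ^ (LL N + 1)
      ≤ (Real.exp (-(1 / ((qq N : ℝ) - 1) ^ 2))) ^ (LL N + 1) := by gcongr
    _ = Real.exp (((LL N + 1 : ℕ) : ℝ) * (-(1 / ((qq N : ℝ) - 1) ^ 2))) := by
        rw [← Real.exp_nat_mul]
    _ ≤ Real.exp (-1) := by
        apply Real.exp_le_exp.2
        have h2 : (1 : ℝ) ≤ ((LL N + 1 : ℕ) : ℝ) * (1 / ((qq N : ℝ) - 1) ^ 2) := by
          rw [mul_one_div, one_le_div (by nlinarith)]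
          unfold LL
          push_cast
          nlinarith
        linarith
    _ ≤ 2 / 5 := by
        have := Real.exp_neg_one_lt_d9
        linarith

lemma rho4_tendsto :
    Tendsto (fun N : ℕ => rho (fun i j : Fin 4 => (SimpleGraph.cycleGraph 4).Adj i j) (qq N) 4 ^
      (LL N + 1)) atTop (𝓝 1) := by
  have hlow : Tendsto (fun _ : ℕ => (1 : ℝ)) atTop (𝓝 1) := tendsto_const_nhds
  have hup : Tendsto (fun N : ℕ => Real.exp (5 / ((N : ℝ) + 2))) atTop (𝓝 (Real.exp 0)) := by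
    refine (Real.continuous_exp.tendsto 0).comp ?_
    have h1 : Tendsto (fun N : ℕ => (N : ℝ) + 2) atTop atTop :=
      tendsto_atTop_add_const_right _ _ tendsto_natCast_atTop_atTop
    exact h1.const_div_atTop 5
  rw [Real.exp_zero] at hup
  refine tendsto_of_tendsto_of_tendsto_of_le_of_le hlow hup ?_ ?_
  · intro N
    have hq : 3 ≤ qq N := by unfold qq; omega
    have hq' : (3 : ℝ) ≤ (qq N : ℝ) := by exact_mod_cast hq
    simp only
    rw [rho_four hq]
    apply one_le_pow₀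
    have : (0 : ℝ) ≤ 1 / ((qq N : ℝ) - 1) ^ 3 := by
      apply div_nonneg (by norm_num)
      apply pow_nonneg
      linarith
    linarith
  · intro N
    have hq : 3 ≤ qq N := by unfold qq; omega
    have hq' : (3 : ℝ) ≤ (qq N : ℝ) := by exact_mod_cast hq
    simp only
    rw [rho_four hq]
    have h0 : (0 : ℝ) ≤ 1 / ((qq N : ℝ) - 1) ^ 3 := by
      apply div_nonneg (by norm_num)
      apply pow_nonneg
      linarith
    have h1 : (1 : ℝ) + 1 / ((qq N : ℝ) - 1) ^ 3 ≤ Real.exp (1 / ((qq N : ℝ) - 1) ^ 3) := by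
      have := Real.add_one_le_exp (1 / ((qq N : ℝ) - 1) ^ 3)
      linarith
    calc (1 + 1 / ((qq N : ℝ) - 1) ^ 3) ^ (LL N + 1)
        ≤ (Real.exp (1 / ((qq N : ℝ) - 1) ^ 3)) ^ (LL N + 1) := by gcongr
      _ = Real.exp (((LL N + 1 : ℕ) : ℝ) * (1 / ((qq N : ℝ) - 1) ^ 3)) := by
          rw [← Real.exp_nat_mul]
      _ ≤ Real.exp (5 / ((N : ℝ) + 2)) := by
          apply Real.exp_le_exp.2
          have h3 : ((qq N : ℕ) : ℝ) - 1 = (N : ℝ) + 2 := by unfold qq; push_cast; ring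
          have h4 : ((LL N + 1 : ℕ) : ℝ) = ((N : ℝ) + 3) ^ 2 + 1 := by
            unfold LL qq; push_cast; ring
          rw [h3, h4, mul_one_div, div_le_div_iff₀ (by positivity) (by positivity)]
          have hN : (0 : ℝ) ≤ N := Nat.cast_nonneg N
          nlinarith [mul_nonneg hN hN, mul_nonneg hN (mul_nonneg hN hN)]

lemma rhost_le (s t N : ℕ) (hs : 1 ≤ s) :
    rho (fun i j : Fin s ⊕ Fin t => (completeBipartiteGraph (Fin s) (Fin t)).Adj i j) (qq N) (s * t)
      ^ (LL N + 1) ≤ Real.exp (2 * (2 * 2 ^ (s * t) * (s : ℝ) ^ 2)) := by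
  have hq : 3 ≤ qq N := by unfold qq; omega
  have hq' : (3 : ℝ) ≤ (qq N : ℝ) := by exact_mod_cast hq
  set K : ℝ := 2 * 2 ^ (s * t) * (s : ℝ) ^ 2 with hK
  have hK0 : 0 ≤ K := by positivity
  have h1 := rho_bip (q := qq N) (by omega) s t hs
  have h0 : 0 ≤ rho (fun i j : Fin s ⊕ Fin t => (completeBipartiteGraph (Fin s) (Fin t)).Adj i j)
      (qq N) (s * t) := by
    unfold rho
    have := uu_pos (q := qq N) (by omega)
    positivity
  calc rho (fun i j : Fin s ⊕ Fin t => (completeBipartiteGraph (Fin s) (Fin t)).Adj i j) (qq N) (s * t)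
      ^ (LL N + 1) ≤ (1 + K / (qq N : ℝ) ^ 2) ^ (LL N + 1) := by gcongr
    _ ≤ (Real.exp (K / (qq N : ℝ) ^ 2)) ^ (LL N + 1) := by
        have := Real.add_one_le_exp (K / (qq N : ℝ) ^ 2)
        gcongr
        linarith
    _ = Real.exp (((LL N + 1 : ℕ) : ℝ) * (K / (qq N : ℝ) ^ 2)) := by
        rw [← Real.exp_nat_mul]
    _ ≤ Real.exp (2 * K) := by
        apply Real.exp_le_exp.2
        rw [mul_div_assoc', div_le_iff₀ (by positivity)]
        unfold LL
        push_cast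
        nlinarith [mul_nonneg hK0 (by positivity : (0 : ℝ) ≤ (qq N : ℝ) ^ 2), sq_nonneg (qq N : ℝ),
          mul_nonneg hK0 (by nlinarith : (0 : ℝ) ≤ (qq N : ℝ) ^ 2 - 1)]

/-- The normalised count of a pattern. -/
noncomputable def val {ι : Type} [Fintype ι] (R : ι → ι → Prop) (e N n : ℕ) : ℝ :=
  (Set.ncard {f : ι → Fin n | Function.Injective f ∧ ∀ i j, R i j → (gr (qq N) (LL N) n).Adj (f i) (f j)} : ℝ)
        / ((n.descFactorial (Fintype.card ι) : ℝ) * (pp N) ^ e)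

lemma val_limit {ι : Type} [Fintype ι] (R : ι → ι → Prop) (e N : ℕ) :
    Tendsto (val R e N) atTop (𝓝 (rho R (qq N) e ^ (LL N + 1))) :=
  count_limit R (qq N) (LL N) e

theorem main (s : ℕ) (hs : 2 ≤ s) (a : ℝ) (ha : 0 < a) :
    ∃ φ : ℕ → ℕ,
      Tendsto (fun n : ℕ => pp (φ n) / ((Real.log n) ^ a * (n : ℝ) ^ (-(1 / (s : ℝ))))) atTop atTop ∧
      Tendsto (fun n => val (fun i j : Fin 2 => (⊤ : SimpleGraph (Fin 2)).Adj i j) 1 (φ n) n)
        atTop (𝓝 1) ∧
      Tendsto (fun n => val (fun i j : Fin 4 => (SimpleGraph.cycleGraph 4).Adj i j) 4 (φ n) n)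
        atTop (𝓝 1) ∧
      (∀ t : ℕ, ∃ C : ℝ, ∀ n, val (fun i j : Fin s ⊕ Fin t =>
        (completeBipartiteGraph (Fin s) (Fin t)).Adj i j) (s * t) (φ n) n ≤ C) ∧
      ¬ Tendsto (fun n => val (fun i j : Fin 3 => (SimpleGraph.cycleGraph 3).Adj i j) 3 (φ n) n)
        atTop (𝓝 1) := by
  have hP : ∀ N : ℕ, ∀ᶠ n : ℕ in atTop,
      ((N : ℝ) ≤ pp N / ((Real.log n) ^ a * (n : ℝ) ^ (-(1 / (s : ℝ))))) ∧
      |val (fun i j : Fin 2 => (⊤ : SimpleGraph (Fin 2)).Adj i j) 1 N n - 1| < 1 / ((N : ℝ) + 1) ∧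
      |val (fun i j : Fin 4 => (SimpleGraph.cycleGraph 4).Adj i j) 4 N n -
        rho (fun i j : Fin 4 => (SimpleGraph.cycleGraph 4).Adj i j) (qq N) 4 ^ (LL N + 1)|
          < 1 / ((N : ℝ) + 1) ∧
      (∀ t ∈ Finset.range (N + 1), val (fun i j : Fin s ⊕ Fin t =>
        (completeBipartiteGraph (Fin s) (Fin t)).Adj i j) (s * t) N n <
          Real.exp (2 * (2 * 2 ^ (s * t) * (s : ℝ) ^ 2)) + 1) ∧
      val (fun i j : Fin 3 => (SimpleGraph.cycleGraph 3).Adj i j) 3 N n < 1 / 2 := by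
    intro N
    have hq : 3 ≤ qq N := by unfold qq; omega
    have hN : (0 : ℝ) < 1 / ((N : ℝ) + 1) := by positivity
    refine (thr_eventually s hs a ha N).and ?_
    have h2 : Tendsto (val (fun i j : Fin 2 => (⊤ : SimpleGraph (Fin 2)).Adj i j) 1 N) atTop
        (𝓝 1) := by
      have := val_limit (fun i j : Fin 2 => (⊤ : SimpleGraph (Fin 2)).Adj i j) 1 N
      rwa [rho_two (by omega), one_pow] at this
    have h4 := val_limit (fun i j : Fin 4 => (SimpleGraph.cycleGraph 4).Adj i j) 4 N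
    have h3 := val_limit (fun i j : Fin 3 => (SimpleGraph.cycleGraph 3).Adj i j) 3 N
    refine Eventually.and ?_ (Eventually.and ?_ (Eventually.and ?_ ?_))
    · have := (tendsto_order.1 ((h2.sub_const 1).abs)).2 (1 / ((N : ℝ) + 1))
      rw [sub_self, abs_zero] at this
      exact this hN
    · have := (tendsto_order.1 ((h4.sub_const
        (rho (fun i j : Fin 4 => (SimpleGraph.cycleGraph 4).Adj i j) (qq N) 4 ^ (LL N + 1))).abs)).2
        (1 / ((N : ℝ) + 1))
      rw [sub_self, abs_zero] at this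
      exact this hN
    · rw [Filter.eventually_all_finset]
      intro t _
      have ht := val_limit (fun i j : Fin s ⊕ Fin t =>
        (completeBipartiteGraph (Fin s) (Fin t)).Adj i j) (s * t) N
      apply (tendsto_order.1 ht).2
      have := rhost_le s t N (by omega)
      linarith
    · apply (tendsto_order.1 h3).2
      have := rho3_le N
      linarith
  obtain ⟨φ, hφ, hev⟩ := exists_diag _ hP
  have hφr : Tendsto (fun n => ((φ n : ℕ) : ℝ)) atTop atTop := tendsto_natCast_atTop_atTop.comp hφ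
  have hinv : Tendsto (fun n => 1 / ((φ n : ℝ) + 1)) atTop (𝓝 0) :=
    tendsto_one_div_add_atTop_nhds_zero_nat.comp hφ
  refine ⟨φ, ?_, ?_, ?_, ?_, ?_⟩
  · refine tendsto_atTop_mono' atTop ?_ hφr
    filter_upwards [hev] with n hn using hn.1
  · have h0 : Tendsto (fun n => val (fun i j : Fin 2 => (⊤ : SimpleGraph (Fin 2)).Adj i j) 1 (φ n) n - 1)
        atTop (𝓝 0) := by
      refine squeeze_zero_norm' ?_ hinv
      filter_upwards [hev] with n hn
      rw [Real.norm_eq_abs]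
      exact hn.2.1.le
    have := h0.add_const 1
    simpa using this
  · have h0 : Tendsto (fun n => val (fun i j : Fin 4 => (SimpleGraph.cycleGraph 4).Adj i j) 4 (φ n) n
        - rho (fun i j : Fin 4 => (SimpleGraph.cycleGraph 4).Adj i j) (qq (φ n)) 4 ^ (LL (φ n) + 1))
        atTop (𝓝 0) := by
      refine squeeze_zero_norm' ?_ hinv
      filter_upwards [hev] with n hn
      rw [Real.norm_eq_abs]
      exact hn.2.2.1.le
    have h1 := rho4_tendsto.comp hφ
    have := h0.add h1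
    simpa using this
  · intro t
    apply bounded_of_eventually _ (Real.exp (2 * (2 * 2 ^ (s * t) * (s : ℝ) ^ 2)) + 1)
    filter_upwards [hev, hφ.eventually_ge_atTop t] with n hn ht
    exact (hn.2.2.2.1 t (Finset.mem_range.2 (by omega))).le
  · intro hcontra
    have h1 := (tendsto_order.1 hcontra).1 (1 / 2) (by norm_num)
    obtain ⟨n, hn1, hn2⟩ := (h1.and hev).exists
    have := hn2.2.2.2.2
    linarith

end Pool.Agent.T6.H96
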